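import Mathlib

/-!
# MP_7d9a72_al : a nilpotent exceptional Jordan algebra of dimension 12

Over every field of characteristic different from `2` there is a nilpotent exceptional
(that is, non-special) Jordan algebra of dimension `12`.

The algebra has basis `x, y, z, t, u, w, n, r, q, m, v, s` and nonzero products
`x x = t`, `y y = u`, `y z = w`, `x u = n`, `y t = r`, `z t = q`, `x w = m`, `z n = 2 v`,
`y m = -v`, `x v = s`, `w r = 2 s`, `u q = -4 s`.
-/

namespace Pool.Agent.Results.MP_7d9a72_al.DimTwelve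

universe u v

/-- A Jordan algebra over `F`: an `F`-bilinear commutative product on the vector space `J`
which satisfies `(x^2 y) x = x^2 (y x)`. -/
structure IsJordan (F : Type u) [Field F] (J : Type u) [AddCommGroup J] [Module F J]
    (mul : J →ₗ[F] J →ₗ[F] J) : Prop where
  comm : ∀ a b : J, mul a b = mul b a
  jordan : ∀ a b : J, mul (mul (mul a a) b) a = mul (mul a a) (mul b a)

/-- `(J, mul)` is special: for some associative (not necessarily unital) `F`-algebra `A` there
is an injective linear map `φ : J → A` with `φ (a b) = (1/2) (φ a φ b + φ b φ a)`, i.e. `J` is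
isomorphic to a subalgebra of `A⁺`. -/
def IsSpecial (F : Type u) [Field F] (J : Type u) [AddCommGroup J] [Module F J]
    (mul : J →ₗ[F] J →ₗ[F] J) : Prop :=
  ∃ (A : Type v) (_ : NonUnitalRing A) (_ : Module F A) (_ : IsScalarTower F A A)
    (_ : SMulCommClass F A A) (φ : J →ₗ[F] A), Function.Injective φ ∧
      ∀ a b : J, φ (mul a b) = (2 : F)⁻¹ • (φ a * φ b + φ b * φ a)

/-- `IsProd mul k c`: the element `c` is a product of `k ≥ 1` elements of `J`, in some
arrangement of brackets.  The power `J^k` is the linear span of these elements. -/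
inductive IsProd {F : Type u} [Field F] {J : Type u} [AddCommGroup J] [Module F J]
    (mul : J →ₗ[F] J →ₗ[F] J) : ℕ → J → Prop
  | one (a : J) : IsProd mul 1 a
  | mul {i j : ℕ} {a b : J} : IsProd mul i a → IsProd mul j b → IsProd mul (i + j) (mul a b)

/-- `J` is nilpotent: `J^k = 0` for some `k ≥ 1`. -/
def IsNilp {F : Type u} [Field F] {J : Type u} [AddCommGroup J] [Module F J]
    (mul : J →ₗ[F] J →ₗ[F] J) : Prop :=
  ∃ k : ℕ, 1 ≤ k ∧ Submodule.span F {c : J | IsProd mul k c} = ⊥

section construction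

variable {F : Type u} [Field F]

/-- the product in coordinates -/
def pr (a b : Fin 12 → F) : Fin 12 → F :=
  ![0, 0, 0,
    a 0 * b 0,
    a 1 * b 1,
    a 1 * b 2 + a 2 * b 1,
    a 0 * b 4 + a 4 * b 0,
    a 1 * b 3 + a 3 * b 1,
    a 2 * b 3 + a 3 * b 2,
    a 0 * b 5 + a 5 * b 0,
    2 * (a 2 * b 6 + a 6 * b 2) - (a 1 * b 9 + a 9 * b 1),
    a 0 * b 10 + a 10 * b 0 + 2 * (a 5 * b 7 + a 7 * b 5) - 4 * (a 4 * b 8 + a 8 * b 4)]

/-- the product as a bilinear map -/
def mulL : (Fin 12 → F) →ₗ[F] (Fin 12 → F) →ₗ[F] (Fin 12 → F) :=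
  LinearMap.mk₂ F pr
    (by intro a b c; funext i; fin_cases i <;> simp [pr] <;> ring)
    (by intro k a b; funext i; fin_cases i <;> simp [pr] <;> ring)
    (by intro a b c; funext i; fin_cases i <;> simp [pr] <;> ring)
    (by intro k a b; funext i; fin_cases i <;> simp [pr] <;> ring)

theorem mulL_apply (a b : Fin 12 → F) : mulL a b = pr a b := rfl

theorem isJordan : IsJordan F (Fin 12 → F) mulL where
  comm a b := by
    simp only [mulL_apply]
    funext i; fin_cases i <;> simp [pr] <;> ring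
  jordan a b := by
    simp only [mulL_apply]
    funext i; fin_cases i <;> simp [pr] <;> ring

/-- weights of the basis vectors -/
def wt : Fin 12 → ℕ := ![1, 1, 1, 2, 2, 2, 3, 3, 3, 3, 4, 5]

theorem term_zero {a b : Fin 12 → F} {p q : ℕ} (ha : ∀ i, wt i < p → a i = 0)
    (hb : ∀ i, wt i < q → b i = 0) (i j : Fin 12) (h : wt i + wt j < p + q) :
    a i * b j = 0 := by
  rcases lt_or_ge (wt i) p with h1 | h1
  · rw [ha i h1, zero_mul]
  · rw [hb j (by omega), mul_zero]

theorem wt_mul {a b : Fin 12 → F} {p q : ℕ} (ha : ∀ i, wt i < p → a i = 0)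
    (hb : ∀ i, wt i < q → b i = 0) : ∀ i, wt i < p + q → pr a b i = 0 := by
  intro i hi
  have T := fun i j => term_zero ha hb i j
  fin_cases i
  · simp [pr]
  · simp [pr]
  · simp [pr]
  · have h1 := T 0 0 (by simpa [wt] using hi)
    simp [pr, h1]
  · have h1 := T 1 1 (by simpa [wt] using hi)
    simp [pr, h1]
  · have h1 := T 1 2 (by simpa [wt] using hi)
    have h2 := T 2 1 (by simpa [wt] using hi)
    simp [pr, h1, h2]
  · have h1 := T 0 4 (by simpa [wt] using hi)
    have h2 := T 4 0 (by simpa [wt] using hi)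
    simp [pr, h1, h2]
  · have h1 := T 1 3 (by simpa [wt] using hi)
    have h2 := T 3 1 (by simpa [wt] using hi)
    simp [pr, h1, h2]
  · have h1 := T 2 3 (by simpa [wt] using hi)
    have h2 := T 3 2 (by simpa [wt] using hi)
    simp [pr, h1, h2]
  · have h1 := T 0 5 (by simpa [wt] using hi)
    have h2 := T 5 0 (by simpa [wt] using hi)
    simp [pr, h1, h2]
  · have h1 := T 2 6 (by simpa [wt] using hi)
    have h2 := T 6 2 (by simpa [wt] using hi)
    have h3 := T 1 9 (by simpa [wt] using hi)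
    have h4 := T 9 1 (by simpa [wt] using hi)
    simp [pr, h1, h2, h3, h4]
  · have h1 := T 0 10 (by simpa [wt] using hi)
    have h2 := T 10 0 (by simpa [wt] using hi)
    have h3 := T 5 7 (by simpa [wt] using hi)
    have h4 := T 7 5 (by simpa [wt] using hi)
    have h5 := T 4 8 (by simpa [wt] using hi)
    have h6 := T 8 4 (by simpa [wt] using hi)
    simp [pr, h1, h2, h3, h4, h5, h6]

theorem wt_prod {k : ℕ} {c : Fin 12 → F} (h : IsProd mulL k c) : ∀ i, wt i < k → c i = 0 := by
  induction h with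
  | one a => intro i hi; exfalso; revert hi; fin_cases i <;> simp [wt]
  | mul _ _ iha ihb => exact wt_mul iha ihb

theorem isNilp : IsNilp (F := F) mulL := by
  refine ⟨6, by norm_num, ?_⟩
  rw [Submodule.span_eq_bot]
  intro c hc
  funext i
  refine wt_prod hc i ?_
  fin_cases i <;> simp [wt]

/-- basis vectors -/
def e (i : Fin 12) : Fin 12 → F := Pi.single i 1

theorem exceptional (h2 : (2 : F) ≠ 0) : ¬ IsSpecial.{u, v} F (Fin 12 → F) mulL := by
  rintro ⟨A, _, _, _, _, φ, hinj, hφ⟩
  set X := φ (e 0) with hX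
  set Y := φ (e 1) with hY
  set Z := φ (e 2) with hZ
  -- the relevant products in J
  have hxy : mulL (e 0) (e 1) = (0 : Fin 12 → F) := by
    rw [mulL_apply]; funext i; fin_cases i <;> simp [pr, e]
  have hxx : mulL (e 0) (e 0) = (e 3 : Fin 12 → F) := by
    rw [mulL_apply]; funext i; fin_cases i <;> simp [pr, e]
  have hyt : mulL (e 1) (e 3) = (e 7 : Fin 12 → F) := by
    rw [mulL_apply]; funext i; fin_cases i <;> simp [pr, e]
  have hyr : mulL (e 1) (e 7) = (0 : Fin 12 → F) := by
    rw [mulL_apply]; funext i; fin_cases i <;> simp [pr, e]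
  have hzr : mulL (e 2) (e 7) = (0 : Fin 12 → F) := by
    rw [mulL_apply]; funext i; fin_cases i <;> simp [pr, e]
  have hyz : mulL (e 1) (e 2) = (e 5 : Fin 12 → F) := by
    rw [mulL_apply]; funext i; fin_cases i <;> simp [pr, e]
  have hwr : mulL (e 5) (e 7) = ((2 : F) • e 11 : Fin 12 → F) := by
    rw [mulL_apply]; funext i; fin_cases i <;> simp [pr, e]
  have hinv : (2 : F)⁻¹ ≠ 0 := inv_ne_zero h2
  have half : ∀ a : A, (2 : F)⁻¹ • (a + a) = a := fun a => by
    rw [← two_smul F a, smul_smul, inv_mul_cancel₀ h2, one_smul]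
  have dbl : ∀ a : A, a + a = 0 → a = 0 := fun a ha => by
    rw [← half a, ha, smul_zero]
  -- x y = 0
  have hXY : X * Y = -(Y * X) := by
    have h := hφ (e 0) (e 1)
    rw [hxy, map_zero] at h
    have h' := (smul_eq_zero.mp h.symm).resolve_left hinv
    exact eq_neg_of_add_eq_zero_left h'
  -- t = x x
  have hT : φ (e 3) = X * X := by
    rw [← hxx, hφ, half]
  have hTY : X * X * Y = Y * (X * X) := by
    rw [mul_assoc, hXY, mul_neg, ← mul_assoc, hXY, neg_mul, neg_neg, mul_assoc]
  -- r = y t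
  set R := φ (e 7) with hR
  have hRval : R = Y * (X * X) := by
    rw [hR, ← hyt, hφ, hT, hTY, half]
  have hYR : Y * R = R * Y := by
    rw [hRval, mul_assoc Y (X * X) Y, hTY]
  have hYR0 : Y * R = 0 := by
    have h := hφ (e 1) (e 7)
    rw [hyr, map_zero] at h
    have h' := (smul_eq_zero.mp h.symm).resolve_left hinv
    refine dbl _ ?_
    calc Y * R + Y * R = Y * R + R * Y := by rw [← hYR]
      _ = 0 := h'
  have hRY0 : R * Y = 0 := by rw [← hYR, hYR0]
  have hZR : Z * R = -(R * Z) := by
    have h := hφ (e 2) (e 7)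
    rw [hzr, map_zero] at h
    have h' := (smul_eq_zero.mp h.symm).resolve_left hinv
    exact eq_neg_of_add_eq_zero_left h'
  have hRZ : R * Z = -(Z * R) := by rw [hZR, neg_neg]
  have hW : φ (e 5) = (2 : F)⁻¹ • (Y * Z + Z * Y) := by rw [← hyz, hφ]
  have h1 : (Y * Z + Z * Y) * R = 0 := by
    rw [add_mul, mul_assoc, mul_assoc, hYR0, mul_zero, add_zero, hZR, mul_neg, ← mul_assoc,
      hYR0, zero_mul, neg_zero]
  have h3 : R * (Y * Z + Z * Y) = 0 := by
    rw [mul_add, ← mul_assoc, ← mul_assoc, hRY0, zero_mul, zero_add, hRZ, neg_mul, mul_assoc,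
      hRY0, mul_zero, neg_zero]
  have hs : φ ((2 : F) • e 11) = 0 := by
    rw [← hwr, hφ, hW, smul_mul_assoc, mul_smul_comm, h1, h3]
    simp
  have hs' : ((2 : F) • e 11 : Fin 12 → F) = 0 := hinj (by rw [hs, map_zero])
  have := congrFun hs' 11
  simp [e] at this
  exact h2 this

end construction

/-- Over every field of characteristic `≠ 2` there is a nilpotent exceptional Jordan algebra of
dimension `12`. -/
theorem result (F : Type u) [Field F] (h2 : (2 : F) ≠ 0) :
    ∃ (J : Type u) (_ : AddCommGroup J) (_ : Module F J) (mul : J →ₗ[F] J →ₗ[F] J),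
      Module.finrank F J = 12 ∧ IsJordan F J mul ∧ IsNilp mul ∧ ¬ IsSpecial.{u, v} F J mul :=
  ⟨Fin 12 → F, inferInstance, inferInstance, mulL, by simp, isJordan, isNilp,
    exceptional h2⟩

end Pool.Agent.Results.MP_7d9a72_al.DimTwelve
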